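import Pool.Agent.TH526.AE.Main

set_option autoImplicit false

/-! Mean values of absolute values of almost periodic functions with values in class functions. -/

namespace Pool.Agent.TH526.AE

open Complex Filter Topology ComplexConjugate Pool.Agent.H341R2 NumberField IsDedekindDomain
  Pool.Agent.W401.Cheb Pool.Agent.W540.BE Polynomial Pool.Agent.W353.L1 MeasureTheory

section
variable {F : Type} [Field F] [NumberField F] {U : Subgroup (GK F)} [U.Normal]

/-- the real part with a height, on `G / U × ℝ` -/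
noncomputable def MR (A : CF U) (t : ℝ) (q : GK F ⧸ U) (y : ℝ) : ℝ :=
  (A.f q * cexp (-((t * y : ℝ) : ℂ) * I)).re

/-- almost periodic functions -/
inductive AP (U : Subgroup (GK F)) [U.Normal] : (GK F ⧸ U → ℝ → ℝ) → Prop
  | atom (A : CF U) (t : ℝ) : AP U (MR A t)
  | add {Φ Ψ : GK F ⧸ U → ℝ → ℝ} : AP U Φ → AP U Ψ → AP U (fun q y => Φ q y + Ψ q y)
  | smul (c : ℝ) {Φ : GK F ⧸ U → ℝ → ℝ} : AP U Φ → AP U (fun q y => c * Φ q y)

theorem MR_mul (A B : CF U) (s t : ℝ) (q : GK F ⧸ U) (y : ℝ) : MR A s q y * MR B t q y =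
    1 / 2 * MR (A.mul B) (s + t) q y + 1 / 2 * MR (A.mul B.star) (s - t) q y := by
  have h1 : ∀ x y : ℂ, x.re * y.re = 1 / 2 * (x * y).re + 1 / 2 * (x * conj y).re := by
    intro x y
    simp only [Complex.mul_re, Complex.conj_re, Complex.conj_im]
    ring
  unfold MR
  rw [h1]
  congr 2
  · congr 1
    have e : cexp (-((((s + t) * y : ℝ)) : ℂ) * I) =
        cexp (-((s * y : ℝ) : ℂ) * I) * cexp (-((t * y : ℝ) : ℂ) * I) := by
      rw [← Complex.exp_add]; congr 1; push_cast; ring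
    rw [e]
    unfold CF.mul
    ring
  · congr 1
    have e : cexp (-((((s - t) * y : ℝ)) : ℂ) * I) =
        cexp (-((s * y : ℝ) : ℂ) * I) * conj (cexp (-((t * y : ℝ) : ℂ) * I)) := by
      rw [← Complex.exp_conj, ← Complex.exp_add, map_mul, map_neg, Complex.conj_ofReal,
        Complex.conj_I]
      congr 1; push_cast; ring
    rw [e, map_mul]
    unfold CF.mul CF.star
    ring

theorem AP.congr {Φ Ψ : GK F ⧸ U → ℝ → ℝ} (h : AP U Φ) (he : ∀ q y, Φ q y = Ψ q y) : AP U Ψ := by
  have : Φ = Ψ := by funext q y; exact he q y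
  rwa [← this]

theorem AP.mul {Φ Ψ : GK F ⧸ U → ℝ → ℝ} (h : AP U Φ) (h' : AP U Ψ) :
    AP U (fun q y => Φ q y * Ψ q y) := by
  induction h with
  | atom A s =>
    induction h' with
    | atom B t =>
      exact (((AP.atom (A.mul B) (s + t)).smul (1 / 2)).add
        ((AP.atom (A.mul B.star) (s - t)).smul (1 / 2))).congr fun q y => (MR_mul A B s t q y).symm
    | add _ _ h1 h2 => exact (h1.add h2).congr fun q y => by ring
    | smul c _ h1 => exact (h1.smul c).congr fun q y => by ring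
  | add _ _ h1 h2 => exact (h1.add h2).congr fun q y => by ring
  | smul c _ h1 => exact (h1.smul c).congr fun q y => by ring

/-- the constant function one -/
noncomputable def oneCF (U : Subgroup (GK F)) [U.Normal] : CF U where
  f _ := 1
  cls _ _ := rfl
  herm _ := by rw [map_one]

theorem AP.one : AP U (fun _ _ => 1) :=
  (AP.atom (oneCF U) 0).congr fun q y => by
    unfold MR oneCF
    simp

theorem AP.pow {Φ : GK F ⧸ U → ℝ → ℝ} (h : AP U Φ) (n : ℕ) : AP U (fun q y => Φ q y ^ n) := by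
  induction n with
  | zero => exact AP.one.congr fun q y => by rw [pow_zero]
  | succ n ih => exact (ih.mul h).congr fun q y => by rw [pow_succ]

theorem AP.poly {Φ : GK F ⧸ U → ℝ → ℝ} (h : AP U Φ) (P : Polynomial ℝ) :
    AP U (fun q y => P.eval (Φ q y)) := by
  induction P using Polynomial.induction_on' with
  | add P Q hP hQ => exact (hP.add hQ).congr fun q y => by rw [Polynomial.eval_add]
  | monomial n a => exact ((h.pow n).smul a).congr fun q y => by rw [Polynomial.eval_monomial]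

theorem AP.sum {κ : Type*} (S : Finset κ) {Φ : κ → GK F ⧸ U → ℝ → ℝ} (h : ∀ k, AP U (Φ k)) :
    AP U (fun q y => ∑ k ∈ S, Φ k q y) := by
  classical
  induction S using Finset.induction_on with
  | empty => exact (AP.one.smul 0).congr fun q y => by simp
  | insert a s ha ih => exact ((h a).add ih).congr fun q y => by rw [Finset.sum_insert ha]

theorem AP.cont {Φ : GK F ⧸ U → ℝ → ℝ} (h : AP U Φ) (q : GK F ⧸ U) : Continuous (Φ q) := by
  induction h with
  | atom A t =>
    unfold MR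
    fun_prop
  | add _ _ h1 h2 => exact h1.add h2
  | smul c _ h1 => exact continuous_const.mul h1

variable [Finite (GK F ⧸ U)]

theorem AP.bdd {Φ : GK F ⧸ U → ℝ → ℝ} (h : AP U Φ) : ∃ B : ℝ, ∀ q y, |Φ q y| ≤ B := by
  classical
  let _ : Fintype (GK F ⧸ U) := Fintype.ofFinite _
  induction h with
  | atom A t =>
    refine ⟨∑ q, ‖A.f q‖, fun q y => ?_⟩
    unfold MR
    refine (Complex.abs_re_le_norm _).trans ?_
    have e : ‖cexp (-((t * y : ℝ) : ℂ) * I)‖ = 1 := by
      rw [← Complex.ofReal_neg, Complex.norm_exp_ofReal_mul_I]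
    rw [norm_mul, e, mul_one]
    exact Finset.single_le_sum (f := fun q => ‖A.f q‖) (fun q _ => norm_nonneg _)
      (Finset.mem_univ _)
  | add _ _ h1 h2 =>
    obtain ⟨B, hB⟩ := h1
    obtain ⟨B', hB'⟩ := h2
    exact ⟨B + B', fun q y => (abs_add_le _ _).trans (add_le_add (hB q y) (hB' q y))⟩
  | smul c _ h1 =>
    obtain ⟨B, hB⟩ := h1
    refine ⟨|c| * B, fun q y => ?_⟩
    rw [abs_mul]
    exact mul_le_mul_of_nonneg_left (hB q y) (abs_nonneg _)

/-- the mean value over `G / U × [0, Y]` -/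
noncomputable def Mn (U : Subgroup (GK F)) (Φ : GK F ⧸ U → ℝ → ℝ) (Y : ℝ) : ℝ :=
  avR U fun q => (∫ y in (0:ℝ)..Y, Φ q y) / Y

theorem avR_add {φ ψ : GK F ⧸ U → ℝ} : avR U (fun q => φ q + ψ q) = avR U φ + avR U ψ := by
  classical
  let _ : Fintype (GK F ⧸ U) := Fintype.ofFinite _
  unfold avR
  rw [finsum_eq_sum_of_fintype, finsum_eq_sum_of_fintype, finsum_eq_sum_of_fintype,
    Finset.sum_add_distrib, mul_add]

theorem avR_mono {φ ψ : GK F ⧸ U → ℝ} (h : ∀ q, φ q ≤ ψ q) : avR U φ ≤ avR U ψ := by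
  classical
  let _ : Fintype (GK F ⧸ U) := Fintype.ofFinite _
  unfold avR
  rw [finsum_eq_sum_of_fintype, finsum_eq_sum_of_fintype]
  exact mul_le_mul_of_nonneg_left (Finset.sum_le_sum fun q _ => h q) (by positivity)

theorem avR_const (c : ℝ) : avR U (fun _ => c) = c := by
  classical
  let _ : Fintype (GK F ⧸ U) := Fintype.ofFinite _
  unfold avR
  rw [finsum_eq_sum_of_fintype, Finset.sum_const, Finset.card_univ, nsmul_eq_mul,
    ← Nat.card_eq_fintype_card]
  have h0 : (0 : ℝ) < Nat.card (GK F ⧸ U) := by exact_mod_cast Nat.card_pos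
  field_simp

theorem avR_tendsto {φ : ℝ → GK F ⧸ U → ℝ} {m : GK F ⧸ U → ℝ}
    (h : ∀ q, Tendsto (fun Y => φ Y q) atTop (𝓝 (m q))) :
    Tendsto (fun Y => avR U (φ Y)) atTop (𝓝 (avR U m)) := by
  classical
  let _ : Fintype (GK F ⧸ U) := Fintype.ofFinite _
  unfold avR
  simp only [finsum_eq_sum_of_fintype]
  exact (tendsto_finsetSum _ fun q _ => h q).const_mul _

theorem avR_re (A : CF U) : avR U (fun q => (A.f q).re) = (avC U A.f).re := by
  classical
  let _ : Fintype (GK F ⧸ U) := Fintype.ofFinite _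
  unfold avR avC
  rw [finsum_eq_sum_of_fintype, finsum_eq_sum_of_fintype]
  have e : ((Nat.card (GK F ⧸ U) : ℂ)⁻¹ * ∑ q, A.f q) =
      (((Nat.card (GK F ⧸ U) : ℝ)⁻¹ : ℝ) : ℂ) * ∑ q, A.f q := by push_cast; rfl
  rw [e, Complex.re_ofReal_mul, Complex.re_sum]

theorem MR_eq (A : CF U) (t : ℝ) (q : GK F ⧸ U) (y : ℝ) :
    MR A t q y = (A.f q).re * Real.cos (t * y) + (A.f q).im * Real.sin (t * y) := by
  unfold MR
  rw [← Complex.ofReal_neg, Complex.mul_re, Complex.exp_ofReal_mul_I_re,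
    Complex.exp_ofReal_mul_I_im, Real.cos_neg, Real.sin_neg]
  ring

theorem MR_mean (A : CF U) {t : ℝ} (ht : t ≠ 0) (q : GK F ⧸ U) :
    Tendsto (fun Y : ℝ => (∫ y in (0:ℝ)..Y, MR A t q y) / Y) atTop (𝓝 0) := by
  have h1 : ∀ Y : ℝ, ∫ y in (0:ℝ)..Y, MR A t q y =
      ((A.f q).re * Real.sin (t * Y) + (A.f q).im * (1 - Real.cos (t * Y))) / t := by
    intro Y
    simp only [MR_eq]
    rw [intervalIntegral.integral_add (Continuous.intervalIntegrable (by fun_prop) _ _)
      (Continuous.intervalIntegrable (by fun_prop) _ _), intervalIntegral.integral_const_mul,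
      intervalIntegral.integral_const_mul, intervalIntegral.integral_comp_mul_left _ ht,
      intervalIntegral.integral_comp_mul_left _ ht, integral_cos, integral_sin]
    simp only [mul_zero, Real.sin_zero, Real.cos_zero, sub_zero, smul_eq_mul]
    field_simp
  have h2 : ∀ Y : ℝ, |∫ y in (0:ℝ)..Y, MR A t q y| ≤ (|(A.f q).re| + 2 * |(A.f q).im|) / |t| := by
    intro Y
    rw [h1, abs_div]
    refine div_le_div_of_nonneg_right ?_ (abs_nonneg _)
    refine (abs_add_le _ _).trans (add_le_add ?_ ?_)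
    · rw [abs_mul]
      exact mul_le_of_le_one_right (abs_nonneg _) (Real.abs_sin_le_one _)
    · rw [abs_mul, mul_comm (2:ℝ)]
      refine mul_le_mul_of_nonneg_left ?_ (abs_nonneg _)
      rw [abs_le]
      constructor <;> linarith [Real.neg_one_le_cos (t * Y), Real.cos_le_one (t * Y)]
  have h3 : Tendsto (fun Y : ℝ => (|(A.f q).re| + 2 * |(A.f q).im|) / |t| / Y) atTop (𝓝 0) :=
    tendsto_const_nhds.div_atTop tendsto_id
  refine squeeze_zero_norm' ?_ h3
  filter_upwards [eventually_gt_atTop 0] with Y hY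
  rw [Real.norm_eq_abs, abs_div, abs_of_pos hY]
  exact div_le_div_of_nonneg_right (h2 Y) hY.le

theorem log_point (A : CF U) (t : ℝ) (σ : HeightOneSpectrum (𝓞 F) → GK F)
    (v : HeightOneSpectrum (𝓞 F)) :
    A.R t σ v = MR A t (QuotientGroup.mk (σ v)) (Real.log (nm F v)) := by
  unfold CF.R MR zz
  have hvc : ((nm F v : ℕ) : ℂ) ≠ 0 := by
    have := nm_pos v
    exact_mod_cast this.ne'
  rw [Complex.cpow_def_of_ne_zero hvc, ← Complex.natCast_log]
  congr 3
  push_cast
  ring

variable (hU : IsOpen (U : Set (GK F)))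
  (σ : HeightOneSpectrum (𝓞 F) → GK F) (hσ : ∀ v, IsFrob v (σ v))

include hU hσ in
/-- the two mean values agree -/
theorem AP.means {Φ : GK F ⧸ U → ℝ → ℝ} (h : AP U Φ) :
    ∃ m : ℝ, Has (fun v => Φ (QuotientGroup.mk (σ v)) (Real.log (nm F v))) m ∧
      Tendsto (Mn U Φ) atTop (𝓝 m) := by
  classical
  induction h with
  | atom A t =>
    refine ⟨if t = 0 then (avC U A.f).re else 0, (A.has hU σ hσ t).congr
      (fun v => log_point A t σ v) rfl, ?_⟩
    by_cases ht : t = 0
    · rw [if_pos ht, ← avR_re]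
      refine avR_tendsto fun q => ?_
      refine tendsto_const_nhds.congr' ?_
      filter_upwards [eventually_gt_atTop 0] with Y hY
      have e : ∀ y, MR A t q y = (A.f q).re := by
        intro y
        rw [MR_eq, ht]
        simp
      simp only [e]
      rw [intervalIntegral.integral_const, smul_eq_mul, sub_zero]
      field_simp
    · rw [if_neg ht]
      have := avR_tendsto (U := U) fun q => MR_mean A ht q
      rwa [avR_const] at this
  | @add Φ Ψ h1' h2' h1 h2 =>
    obtain ⟨m, a1, a2⟩ := h1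
    obtain ⟨m', b1, b2⟩ := h2
    refine ⟨m + m', a1.add b1, (a2.add b2).congr fun Y => ?_⟩
    unfold Mn
    rw [← avR_add]
    congr 1
    funext q
    rw [intervalIntegral.integral_add ((h1'.cont q).intervalIntegrable _ _)
      ((h2'.cont q).intervalIntegrable _ _), add_div]
  | smul c _ h1 =>
    obtain ⟨m, a1, a2⟩ := h1
    refine ⟨c * m, a1.const_mul c, (a2.const_mul c).congr fun Y => ?_⟩
    unfold Mn
    rw [← avR_const_mul]
    congr 1
    funext q
    rw [intervalIntegral.integral_const_mul, mul_div_assoc]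

include hU hσ in
/-- **Mean values of absolute values.** -/
theorem AP.absMean {Φ : GK F ⧸ U → ℝ → ℝ} (h : AP U Φ) {A : ℝ}
    (hA : ∀ᶠ Y : ℝ in atTop, Mn U (fun q y => |Φ q y|) Y ≤ A) {η : ℝ} (hη : 0 < η) :
    ∀ᶠ ε : ℝ in 𝓝[>] 0,
      (EP (nm F) ε fun v => |Φ (QuotientGroup.mk (σ v)) (Real.log (nm F v))|) / lam ε ≤ A + η := by
  classical
  obtain ⟨R, hR⟩ := h.bdd
  set δ : ℝ := η / 8 with hδ
  have hδ0 : 0 < δ := by positivity
  obtain ⟨P, hP⟩ := exists_polynomial_near_of_continuousOn (-R) R (fun x : ℝ => |x|)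
    continuous_abs.continuousOn δ hδ0
  have hP' : ∀ q y, |P.eval (Φ q y) - abs (Φ q y)| ≤ δ := fun q y =>
    (hP (Φ q y) (abs_le.1 (hR q y))).le
  obtain ⟨m, ⟨⟨B, hB⟩, h1⟩, h2⟩ := (h.poly P).means hU σ hσ
  have hm : m ≤ A + δ := by
    refine le_of_tendsto h2 ?_
    filter_upwards [hA, eventually_gt_atTop 0] with Y hY hY0
    have h3 : Mn U (fun q y => P.eval (Φ q y)) Y ≤ Mn U (fun q y => |Φ q y|) Y + δ := by
      unfold Mn
      rw [← avR_const (U := U) δ, ← avR_add]
      refine avR_mono fun q => ?_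
      rw [div_add' _ _ _ hY0.ne']
      refine div_le_div_of_nonneg_right ?_ hY0.le
      have h4 : ∫ y in (0:ℝ)..Y, P.eval (Φ q y) ≤ ∫ y in (0:ℝ)..Y, (|Φ q y| + δ) := by
        refine intervalIntegral.integral_mono_on hY0.le
          (((h.poly P).cont q).intervalIntegrable _ _)
          (Continuous.intervalIntegrable (((h.cont q).abs).add continuous_const) _ _) fun y _ => ?_
        linarith [(abs_le.1 (hP' q y)).2]
      rw [intervalIntegral.integral_add (Continuous.intervalIntegrable (h.cont q).abs _ _)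
        intervalIntegrable_const, intervalIntegral.integral_const, smul_eq_mul, sub_zero] at h4
      linarith
    linarith
  have h3 : ∀ᶠ ε : ℝ in 𝓝[>] 0, (EP (nm F) ε fun _ => 1) / lam ε < 2 :=
    (EP_one F).eventually_lt_const (by norm_num)
  have h4 := h1.eventually_lt_const (show m < m + δ by linarith)
  filter_upwards [h3, h4, lam_tendsto.eventually_gt_atTop 0, self_mem_nhdsWithin]
    with ε h5 h6 h7 h8
  have hε : (0 : ℝ) < ε := h8
  have hb0 : ∀ v : HeightOneSpectrum (𝓞 F),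
      |(fun v => |Φ (QuotientGroup.mk (σ v)) (Real.log (nm F v))|) v| ≤ R := by
    intro v
    simp only
    rw [abs_abs]
    exact hR _ _
  have h9 := EP_add normSys hε hb0 (B' := B) (ψ := fun v => (-1) *
      P.eval (Φ (QuotientGroup.mk (σ v)) (Real.log (nm F v))))
    (fun v => by rw [abs_mul, abs_neg, abs_one, one_mul]; exact hB v)
  rw [EP_const_mul] at h9
  have h10 : (EP (nm F) ε fun v => (|Φ (QuotientGroup.mk (σ v)) (Real.log (nm F v))| + (-1) *
      P.eval (Φ (QuotientGroup.mk (σ v)) (Real.log (nm F v))))) ≤ δ * EP (nm F) ε fun _ => 1 := by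
    refine EP_le normSys hε (B := δ) (fun v => ?_) fun v => ?_
    · have := hP' (QuotientGroup.mk (σ v)) (Real.log (nm F v))
      rw [abs_sub_comm] at this
      refine le_trans (le_of_eq ?_) this
      congr 1
      ring
    · linarith [(abs_le.1 (hP' (QuotientGroup.mk (σ v)) (Real.log (nm F v)))).1]
  rw [h9] at h10
  rw [div_lt_iff₀ h7] at h5 h6
  rw [div_le_iff₀ h7]
  have h11 : δ * (EP (nm F) ε fun _ => 1) ≤ δ * (2 * lam ε) :=
    mul_le_mul_of_nonneg_left h5.le hδ0.le
  have h12 : (m + δ) * lam ε ≤ (A + 2 * δ) * lam ε :=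
    mul_le_mul_of_nonneg_right (by linarith) h7.le
  have h13 : (A + η) * lam ε = (A + 8 * δ) * lam ε := by rw [hδ]; ring
  nlinarith

include hU hσ in
/-- The mean values of the absolute value converge. -/
theorem AP.tendsto_abs {Φ : GK F ⧸ U → ℝ → ℝ} (h : AP U Φ) :
    ∃ M : ℝ, Tendsto (Mn U (fun q y => |Φ q y|)) atTop (𝓝 M) := by
  classical
  obtain ⟨R, hR⟩ := h.bdd
  refine cauchySeq_tendsto_of_complete (Metric.cauchySeq_iff'.2 fun δ' hδ' => ?_)
  set δ : ℝ := δ' / 8 with hδ
  have hδ0 : 0 < δ := by positivity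
  obtain ⟨P, hP⟩ := exists_polynomial_near_of_continuousOn (-R) R (fun x : ℝ => |x|)
    continuous_abs.continuousOn δ hδ0
  have hP' : ∀ q y, |P.eval (Φ q y) - abs (Φ q y)| ≤ δ := fun q y =>
    (hP (Φ q y) (abs_le.1 (hR q y))).le
  obtain ⟨m, -, h2⟩ := (h.poly P).means hU σ hσ
  have hcl : ∀ Y : ℝ, 0 < Y →
      |Mn U (fun q y => P.eval (Φ q y)) Y - Mn U (fun q y => |Φ q y|) Y| ≤ δ := by
    intro Y hY0
    have hq : ∀ q, |(∫ y in (0:ℝ)..Y, P.eval (Φ q y)) / Y - (∫ y in (0:ℝ)..Y, |Φ q y|) / Y| ≤ δ := by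
      intro q
      rw [← sub_div, ← intervalIntegral.integral_sub (((h.poly P).cont q).intervalIntegrable _ _)
        (Continuous.intervalIntegrable (h.cont q).abs _ _), abs_div, abs_of_pos hY0,
        div_le_iff₀ hY0]
      have h3 := intervalIntegral.norm_integral_le_of_norm_le_const (a := (0:ℝ)) (b := Y) (C := δ)
        (f := fun y => P.eval (Φ q y) - |Φ q y|) (fun y _ => hP' q y)
      rw [Real.norm_eq_abs, sub_zero, abs_of_pos hY0] at h3
      exact h3
    rw [abs_le]
    constructor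
    · have h4 : Mn U (fun q y => |Φ q y|) Y ≤ Mn U (fun q y => P.eval (Φ q y)) Y + δ := by
        unfold Mn
        rw [← avR_const (U := U) δ, ← avR_add]
        exact avR_mono fun q => by linarith [(abs_le.1 (hq q)).1]
      linarith
    · have h4 : Mn U (fun q y => P.eval (Φ q y)) Y ≤ Mn U (fun q y => |Φ q y|) Y + δ := by
        unfold Mn
        rw [← avR_const (U := U) δ, ← avR_add]
        exact avR_mono fun q => by linarith [(abs_le.1 (hq q)).2]
      linarith
  have h5 := (Metric.tendsto_nhds.1 h2) δ hδ0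
  obtain ⟨Y0, hY0⟩ := eventually_atTop.1 (h5.and (eventually_gt_atTop (0:ℝ)))
  refine ⟨Y0, fun Y hY => ?_⟩
  obtain ⟨a1, a2⟩ := hY0 Y hY
  obtain ⟨b1, b2⟩ := hY0 Y0 le_rfl
  rw [Real.dist_eq] at a1 b1 ⊢
  have c1 := abs_le.1 (hcl Y a2)
  have c2 := abs_le.1 (hcl Y0 b2)
  have d1 := abs_lt.1 a1
  have d2 := abs_lt.1 b1
  rw [abs_lt]
  constructor <;> linarith [c1.1, c1.2, c2.1, c2.2, d1.1, d1.2, d2.1, d2.2]

end

end Pool.Agent.TH526.AE
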