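import Pool.Agent.W353.L1.Trig

set_option autoImplicit false

/-! Mean values of products of absolute values of two cosines with independent frequencies. -/

namespace Pool.Agent.TH526.AE

open Filter Topology MeasureTheory Pool.Agent.W353.L1

/-- `f` is continuous and has the mean value `m` -/
def MV (f : ℝ → ℝ) (m : ℝ) : Prop :=
  Continuous f ∧ Tendsto (fun Y : ℝ => (∫ y in (0:ℝ)..Y, f y) / Y) atTop (𝓝 m)

theorem MV.add {f g : ℝ → ℝ} {m m' : ℝ} (h : MV f m) (h' : MV g m') :
    MV (fun y => f y + g y) (m + m') := by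
  refine ⟨h.1.add h'.1, (h.2.add h'.2).congr fun Y => ?_⟩
  rw [intervalIntegral.integral_add (h.1.intervalIntegrable _ _) (h'.1.intervalIntegrable _ _),
    add_div]

theorem MV.const_mul {f : ℝ → ℝ} {m : ℝ} (h : MV f m) (c : ℝ) :
    MV (fun y => c * f y) (c * m) := by
  refine ⟨continuous_const.mul h.1, (h.2.const_mul c).congr fun Y => ?_⟩
  rw [intervalIntegral.integral_const_mul, mul_div_assoc]

theorem MV.congr {f g : ℝ → ℝ} {m m' : ℝ} (h : MV f m) (he : ∀ y, f y = g y) (hm : m = m') :
    MV g m' := by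
  have : f = g := funext he
  rw [← this, ← hm]
  exact h

theorem MV_cos (t φ : ℝ) : MV (fun y => Real.cos (t * y + φ)) (if t = 0 then Real.cos φ else 0) := by
  refine ⟨by fun_prop, ?_⟩
  split_ifs with ht
  · subst ht
    refine tendsto_const_nhds.congr' ?_
    filter_upwards [eventually_gt_atTop 0] with Y hY
    simp only [zero_mul, zero_add]
    rw [intervalIntegral.integral_const, smul_eq_mul, sub_zero]
    field_simp
  · have h1 : ∀ Y : ℝ, ∫ y in (0:ℝ)..Y, Real.cos (t * y + φ) =
        (Real.sin (t * Y + φ) - Real.sin φ) / t := by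
      intro Y
      rw [intervalIntegral.integral_comp_mul_add (fun x => Real.cos x) ht φ, integral_cos, smul_eq_mul,
        mul_zero, zero_add, inv_mul_eq_div]
    have h3 : Tendsto (fun Y : ℝ => 2 / |t| / Y) atTop (𝓝 0) :=
      tendsto_const_nhds.div_atTop tendsto_id
    refine squeeze_zero_norm' ?_ h3
    filter_upwards [eventually_gt_atTop 0] with Y hY
    rw [Real.norm_eq_abs, abs_div, abs_of_pos hY]
    refine div_le_div_of_nonneg_right ?_ hY.le
    rw [h1, abs_div]
    refine div_le_div_of_nonneg_right ?_ (abs_nonneg _)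
    have h4 := Real.abs_sin_le_one (t * Y + φ)
    have h5 := Real.abs_sin_le_one φ
    have h6 := abs_sub (Real.sin (t * Y + φ)) (Real.sin φ)
    linarith

/-- cosine polynomials with their constant terms -/
inductive CPoly : (ℝ → ℝ) → ℝ → Prop
  | mono (a : ℝ) (f : ℤ) : CPoly (fun θ => a * Real.cos (f * θ)) (if f = 0 then a else 0)
  | add {F G : ℝ → ℝ} {m m' : ℝ} : CPoly F m → CPoly G m' → CPoly (fun θ => F θ + G θ) (m + m')

theorem CPoly.congr {F G : ℝ → ℝ} {m m' : ℝ} (h : CPoly F m) (he : ∀ θ, F θ = G θ) (hm : m = m') :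
    CPoly G m' := by
  have : F = G := funext he
  rw [← this, ← hm]
  exact h

theorem CPoly.zero : CPoly (fun _ => 0) 0 :=
  (CPoly.mono 0 0).congr (fun θ => by simp) (by simp)

theorem CPoly.sum {κ : Type*} (S : Finset κ) {F : κ → ℝ → ℝ} {m : κ → ℝ}
    (h : ∀ k, CPoly (F k) (m k)) : CPoly (fun θ => ∑ k ∈ S, F k θ) (∑ k ∈ S, m k) := by
  classical
  induction S using Finset.induction_on with
  | empty => exact CPoly.zero.congr (fun θ => by simp) (by simp)
  | insert a s ha ih =>
    exact ((h a).add ih).congr (fun θ => by rw [Finset.sum_insert ha]) (by rw [Finset.sum_insert ha])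

theorem CPoly.cosPow (a : ℝ) (n : ℕ) :
    CPoly (fun θ => a * Real.cos θ ^ n) (a * Mf fun x => x ^ n) := by
  refine (CPoly.sum (Finset.range (n + 1)) fun k => CPoly.mono (a * cc n k) (2 * (k : ℤ) - n)).congr
    (fun θ => ?_) ?_
  · have h1 : (Complex.exp (θ * Complex.I)).re = Real.cos θ := Complex.exp_ofReal_mul_I_re θ
    rw [← h1, cos_pow_expand _ (Complex.norm_exp_ofReal_mul_I θ), Complex.re_sum, Finset.mul_sum]
    refine Finset.sum_congr rfl fun k _ => ?_
    rw [Complex.re_ofReal_mul, ← Complex.exp_int_mul, mul_assoc]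
    congr 2
    have e : ((2 * (k : ℤ) - n : ℤ) : ℂ) * ((θ : ℂ) * Complex.I) =
        ((((2 * (k : ℤ) - n : ℤ) : ℝ) * θ : ℝ) : ℂ) * Complex.I := by push_cast; ring
    rw [e, Complex.exp_ofReal_mul_I_re]
  · rw [Mf_pow, Finset.mul_sum]
    refine Finset.sum_congr rfl fun k _ => ?_
    rw [mul_ite, mul_zero]

theorem CPoly.poly (P : Polynomial ℝ) :
    CPoly (fun θ => P.eval (Real.cos θ)) (Mf fun x => P.eval x) := by
  induction P using Polynomial.induction_on' with
  | add P Q hP hQ =>
    refine (hP.add hQ).congr (fun θ => by rw [Polynomial.eval_add]) ?_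
    simp only [Polynomial.eval_add]
    rw [Mf_add P.continuous Q.continuous]
  | monomial n a =>
    refine (CPoly.cosPow a n).congr (fun θ => by rw [Polynomial.eval_monomial]) ?_
    simp only [Polynomial.eval_monomial]
    rw [Mf_const_mul]

/-- independence of two frequencies -/
def Indep (α β : ℝ) : Prop := ∀ a b : ℤ, a * α + b * β = 0 → a = 0 ∧ b = 0

theorem CPoly.mean_mul {F G : ℝ → ℝ} {m m' : ℝ} (h : CPoly F m) (h' : CPoly G m') {α β : ℝ}
    (hαβ : Indep α β) (φ ψ : ℝ) :
    MV (fun y => F (α * y + φ) * G (β * y + ψ)) (m * m') := by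
  induction h with
  | mono a f =>
    induction h' with
    | mono b g =>
      have h1 := ((MV_cos (f * α + g * β) (f * φ + g * ψ)).const_mul (a * b / 2)).add
        ((MV_cos (f * α - g * β) (f * φ - g * ψ)).const_mul (a * b / 2))
      refine h1.congr (fun y => ?_) ?_
      · have e1 : (f * α + g * β) * y + (f * φ + g * ψ) = f * (α * y + φ) + g * (β * y + ψ) := by ring
        have e2 : (f * α - g * β) * y + (f * φ - g * ψ) = f * (α * y + φ) - g * (β * y + ψ) := by ring
        rw [e1, e2, Real.cos_add, Real.cos_sub]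
        ring
      · by_cases hf : f = 0
        · by_cases hg : g = 0
          · subst hf hg
            simp
          · have h2 : (f : ℝ) * α + g * β ≠ 0 := fun h => hg (hαβ f g h).2
            have h3 : (f : ℝ) * α - g * β ≠ 0 := fun h => by
              have := (hαβ f (-g) (by push_cast; linarith)).2
              omega
            rw [if_neg h2, if_neg h3, if_neg hg]
            ring
        · have h2 : (f : ℝ) * α + g * β ≠ 0 := fun h => hf (hαβ f g h).1
          have h3 : (f : ℝ) * α - g * β ≠ 0 := fun h =>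
            hf (hαβ f (-g) (by push_cast; linarith)).1
          rw [if_neg h2, if_neg h3, if_neg hf]
          ring
    | add _ _ h1 h2 =>
      exact (h1.add h2).congr (fun y => by ring) (by ring)
  | add _ _ h1 h2 => exact (h1.add h2).congr (fun y => by ring) (by ring)

theorem CPoly.one : CPoly (fun _ => 1) 1 :=
  (CPoly.mono 1 0).congr (fun θ => by simp) (by simp)

/-- the mean value of the product of the absolute values of two independent cosines -/
theorem mean_abs_cos {α β : ℝ} (hαβ : Indep α β) (φ ψ : ℝ) {A : ℝ} (hA : (2 / Real.pi) ^ 2 < A) :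
    ∀ᶠ Y : ℝ in atTop,
      (∫ y in (0:ℝ)..Y, |Real.cos (α * y + φ)| * |Real.cos (β * y + ψ)|) / Y ≤ A := by
  have hpi := Real.pi_pos
  -- choice of the precision
  have hcont : ContinuousAt (fun δ : ℝ => (2 / Real.pi + 2 * δ) ^ 2) 0 := by fun_prop
  have h1 : ∀ᶠ δ in 𝓝[>] (0:ℝ), (2 / Real.pi + 2 * δ) ^ 2 < A :=
    (hcont.eventually (gt_mem_nhds (by simpa using hA))).filter_mono nhdsWithin_le_nhds
  obtain ⟨δ, hδA, hδ⟩ := (h1.and self_mem_nhdsWithin).exists
  have hδ0 : 0 < δ := hδ
  obtain ⟨P, hP⟩ := exists_polynomial_near_of_continuousOn (-1) 1 (fun x : ℝ => |x|)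
    continuous_abs.continuousOn δ hδ0
  have hP' : ∀ x ∈ Set.Icc (-1 : ℝ) 1, |P.eval x - abs x| ≤ δ := fun x hx => (hP x hx).le
  set p : ℝ := Mf fun x => P.eval x with hp
  have hp1 : p ≤ 2 / Real.pi + δ := by
    have h2 : |(Mf fun x => P.eval x) - Mf (fun x => abs x)| ≤ δ :=
      Mf_close P.continuous continuous_abs hP'
    rw [Mf_abs] at h2
    linarith [(abs_le.1 h2).2]
  have hp0 : 0 ≤ p + δ := by
    have h2 : |(Mf fun x => P.eval x) - Mf (fun x => abs x)| ≤ δ :=
      Mf_close P.continuous continuous_abs hP'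
    rw [Mf_abs] at h2
    have : 0 < 2 / Real.pi := by positivity
    linarith [(abs_le.1 h2).1]
  have hQ : CPoly (fun θ => P.eval (Real.cos θ) + δ * 1) (p + δ * 1) := by
    refine (CPoly.poly P).add ?_
    exact (CPoly.mono δ 0).congr (fun θ => by simp) (by simp)
  have hM := (hQ.mean_mul hQ hαβ φ ψ)
  have hlt : (p + δ * 1) * (p + δ * 1) < A := by
    refine lt_of_le_of_lt ?_ hδA
    have : p + δ * 1 ≤ 2 / Real.pi + 2 * δ := by linarith
    nlinarith
  filter_upwards [hM.2.eventually_lt_const hlt, eventually_gt_atTop 0] with Y hY hY0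
  refine le_trans ?_ hY.le
  refine div_le_div_of_nonneg_right ?_ hY0.le
  refine intervalIntegral.integral_mono_on hY0.le (Continuous.intervalIntegrable (by fun_prop) _ _)
    (hM.1.intervalIntegrable _ _) fun y _ => ?_
  have a1 := (abs_le.1 (hP' (Real.cos (α * y + φ)) ⟨Real.neg_one_le_cos _, Real.cos_le_one _⟩)).1
  have a2 := (abs_le.1 (hP' (Real.cos (β * y + ψ)) ⟨Real.neg_one_le_cos _, Real.cos_le_one _⟩)).1
  exact mul_le_mul (by linarith) (by linarith) (abs_nonneg _) (by
    linarith [abs_nonneg (Real.cos (α * y + φ))])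

/-- the mean value of the absolute value of a sum of two independent cosines -/
theorem mean_two {s t : ℝ} (hst : Indep s t) (φ ψ : ℝ) {A : ℝ} (hA : 8 / Real.pi ^ 2 < A) :
    ∀ᶠ Y : ℝ in atTop,
      (∫ y in (0:ℝ)..Y, |Real.cos (s * y + φ) + Real.cos (t * y + ψ)|) / Y ≤ A := by
  have h1 : Indep ((s + t) / 2) ((s - t) / 2) := by
    intro a b h
    have h2 := hst (a + b) (a - b) (by push_cast; linarith)
    constructor <;> omega
  have h2 := mean_abs_cos h1 ((φ + ψ) / 2) ((φ - ψ) / 2) (A := A / 2) (by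
    have : (2 / Real.pi) ^ 2 = 8 / Real.pi ^ 2 / 2 := by rw [div_pow]; ring
    rw [this]
    linarith)
  filter_upwards [h2] with Y hY
  have e : ∀ y : ℝ, |Real.cos (s * y + φ) + Real.cos (t * y + ψ)| =
      2 * (|Real.cos ((s + t) / 2 * y + (φ + ψ) / 2)| * |Real.cos ((s - t) / 2 * y + (φ - ψ) / 2)|) := by
    intro y
    rw [Real.cos_add_cos, abs_mul, abs_mul, abs_of_pos (by norm_num : (0:ℝ) < 2), mul_assoc]
    congr 4 <;> ring
  simp only [e]
  rw [intervalIntegral.integral_const_mul, mul_div_assoc]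
  linarith

end Pool.Agent.TH526.AE
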