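import Pool.Agent.W353.AT.Defs

set_option autoImplicit false

/-! The mean value of an almost periodic combination of characters: definition. -/

namespace Pool.Agent.TH526.AE

/-- For functions `χ_k`, `k` in a finite set, on the group `G`, constant on the cosets of the normal
subgroup `U` of finite index, and real `τ_k` and `c_k`: the mean value of
`|∑ c_k Re (χ_k(g) e^{-i τ_k y})|` over `g ∈ G / U` and `0 ≤ y ≤ Y`. -/
noncomputable def meanAbs {G : Type} [Group G] (U : Subgroup G) {κ : Type} [Fintype κ]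
    (χ : κ → G → ℂ) (τ c : κ → ℝ) (Y : ℝ) : ℝ :=
  (∑ᶠ q : G ⧸ U, (∫ y in (0:ℝ)..Y,
    |∑ k, c k * (χ k q.out * Complex.exp (-((τ k * y : ℝ) : ℂ) * Complex.I)).re|) / Y) /
    Nat.card (G ⧸ U)

end Pool.Agent.TH526.AE
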