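import Pool.Agent.W353.AT.Main

set_option autoImplicit false

/-! The sup-norm inequality on the edge line, uniformly for complete families and without
continuation. -/

namespace Pool.Agent.TH526.AE

open Complex Filter Topology ComplexConjugate Pool.Agent.H341R2 NumberField IsDedekindDomain
  Pool.Agent.W401.Cheb Pool.Agent.W540.BE Polynomial Pool.Agent.W353.L1

/-- finitely many directions detect the absolute value -/
theorem exists_net (A η : ℝ) (hA : 0 ≤ A) (hη : 0 < η) : ∃ S : Finset ℂ, (∀ u ∈ S, ‖u‖ = 1) ∧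
    ∀ z : ℂ, (∀ u ∈ S, (u * z).re ≤ A + η / 2) → ‖z‖ ≤ A + η := by
  set δ : ℝ := (η / 2) / (A + η) with hδ
  have hAη : 0 < A + η := by linarith
  have hδ0 : 0 < δ := by positivity
  obtain ⟨t, ht1, ht2, ht3⟩ := (isCompact_sphere (0 : ℂ) 1).finite_cover_balls hδ0
  refine ⟨ht2.toFinset, fun u hu => ?_, fun z hz => ?_⟩
  · have := ht1 (ht2.mem_toFinset.1 hu)
    simpa using this
  · by_cases h0 : z = 0
    · rw [h0, norm_zero]; linarith
    have hz0 : 0 < ‖z‖ := norm_pos_iff.2 h0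
    set u₀ : ℂ := conj z / (‖z‖ : ℂ) with hu₀
    have hu1 : ‖u₀‖ = 1 := by
      rw [hu₀, norm_div, Complex.norm_conj, Complex.norm_real, norm_norm, div_self hz0.ne']
    have hu2 : (u₀ * z).re = ‖z‖ := by
      rw [hu₀, div_mul_eq_mul_div, mul_comm (conj z) z, Complex.mul_conj, Complex.normSq_eq_norm_sq,
        ← Complex.ofReal_div, Complex.ofReal_re, sq, mul_div_assoc, div_self hz0.ne', mul_one]
    have hmem : u₀ ∈ ⋃ x ∈ t, Metric.ball x δ := ht3 (by simpa using hu1)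
    rw [Set.mem_iUnion₂] at hmem
    obtain ⟨u, hu, hud⟩ := hmem
    rw [Metric.mem_ball, dist_eq_norm] at hud
    have h1 := hz u (ht2.mem_toFinset.2 hu)
    have h2 : ‖z‖ = (u * z).re + ((u₀ - u) * z).re := by
      rw [← hu2, sub_mul, Complex.sub_re]; ring
    have h3 : ((u₀ - u) * z).re ≤ δ * ‖z‖ := by
      refine (Complex.re_le_norm _).trans ?_
      rw [norm_mul]
      exact mul_le_mul_of_nonneg_right hud.le hz0.le
    have h4 : ‖z‖ * (1 - δ) ≤ A + η / 2 := by linarith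
    have h5 : (A + η) * (1 - δ) = A + η / 2 := by
      rw [hδ]
      field_simp
      ring
    have h6 : 0 < 1 - δ := by
      have : δ < 1 := by
        rw [hδ, div_lt_one hAη]; linarith
      linarith
    by_contra h7
    push Not at h7
    have := mul_lt_mul_of_pos_right h7 h6
    linarith

section
variable {F : Type} [Field F] [NumberField F] {b : ℕ} (w : ℝ)
    (α : HeightOneSpectrum (𝓞 F) → Fin b → ℂ)
    (hα : ∀ᶠ v in cofinite, ∀ j, ‖α v j‖ = (nm F v : ℝ) ^ w)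
    (hreal : ∀ᶠ v in cofinite, (∑ j, α v j).im = 0)
    (U : Subgroup (GK F)) [U.Normal] (hU : IsOpen (U : Set (GK F))) [Finite (GK F ⧸ U)]
    {κ : Type*} [Fintype κ] {n : κ → ℕ}
    (ρ : ∀ k, Representation ℂ (GK F) (Fin (n k) → ℂ)) (hρ : ∀ k, ∀ u ∈ U, ρ k u = 1)
    (τ : κ → ℝ) (B : κ → HeightOneSpectrum (𝓞 F) → ℂ[X])
    (hB : ∀ k, ∀ᶠ v in cofinite, ∀ σ : GK F, IsFrob v σ → ∀ z : ℂ,
      (B k v).eval z = ∏ j, LinearMap.det (1 - (α v j * z) • ρ k σ⁻¹))
    (hB0 : ∀ k, ∀ v, (B k v).eval (((nm F v : ℕ) : ℂ) ^ (-(w + 1 + τ k * I : ℂ))) ≠ 0)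
    (L : κ → ℂ → ℂ)
    (hL : ∀ k, ∀ s : ℂ, w + 1 < s.re →
      L k s = ∏' v, ((B k v).eval (((nm F v : ℕ) : ℂ) ^ (-s)))⁻¹)

/-- the norm of the test function of a direction `u` and a class `g` -/
theorem nrm_dir (t : ℝ) (hirr : ∀ k, (ρ k).IsIrreducible)
    (hne : ∀ k l, k ≠ l → IsEmpty ((ρ k).Equiv (ρ l)))
    (hsum : ∑ k, n k ^ 2 = Nat.card (GK F ⧸ U)) (g : GK F) (u : ℂ) (hu1 : ‖u‖ = 1) :
    nrm U t (comb U Finset.univ ρ hρ fun k => (u * (ρ k).character g).re) ≤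
      if t = 0 then 1 else 2 / Real.pi := by
  classical
  let _ : Fintype (GK F ⧸ U) := Fintype.ofFinite _
  set r : ∀ k, Representation ℂ (GK F ⧸ U) (Fin (n k) → ℂ) := fun k => qrep U (ρ k) (hρ k)
    with hr
  have hirr' : ∀ k ∈ (Finset.univ : Finset κ), (r k).IsIrreducible := fun k _ =>
    qrep_irr U (ρ k) (hρ k) (hirr k)
  have hne' : ∀ k ∈ (Finset.univ : Finset κ), ∀ l ∈ (Finset.univ : Finset κ), k ≠ l →
      IsEmpty ((r k).Equiv (r l)) := by
    intro k _ l _ hkl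
    rw [← not_nonempty_iff, hr, qrep_equiv U (ρ k) (hρ k) (ρ l) (hρ l), not_nonempty_iff]
    exact hne k l hkl
  set c : κ → ℝ := fun k => (u * (ρ k).character g).re with hc
  refine (nrm_le U t _).trans ?_
  have h2 : avR U (fun q => ‖comb U Finset.univ ρ hρ c q‖) ≤ 1 := by
    have h3 := comb_le Finset.univ r hirr' hne' hsum (QuotientGroup.mk g) u hu1
    have e3 : ∀ q, comb U Finset.univ ρ hρ c q =
        ∑ k, (((u * (r k).character (QuotientGroup.mk g)).re : ℝ) : ℂ) *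
          (r k).character q⁻¹ := by
      intro q
      unfold comb
      refine Finset.sum_congr rfl fun k _ => ?_
      rfl
    unfold avR
    rw [finsum_eq_sum_of_fintype]
    simp only [e3]
    have h0 : (0 : ℝ) < Nat.card (GK F ⧸ U) := by exact_mod_cast Nat.card_pos
    calc (Nat.card (GK F ⧸ U) : ℝ)⁻¹ * ∑ q, ‖∑ k,
          (((u * (r k).character (QuotientGroup.mk g)).re : ℝ) : ℂ) * (r k).character q⁻¹‖
        ≤ (Nat.card (GK F ⧸ U) : ℝ)⁻¹ * Nat.card (GK F ⧸ U) :=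
          mul_le_mul_of_nonneg_left h3 (by positivity)
      _ = 1 := inv_mul_cancel₀ h0.ne'
  have h4 : (0 : ℝ) ≤ if t = 0 then 1 else 2 / Real.pi := by
    have := Real.pi_pos
    split_ifs <;> positivity
  calc (if t = 0 then 1 else 2 / Real.pi) * avR U (fun q => ‖comb U Finset.univ ρ hρ c q‖)
      ≤ (if t = 0 then 1 else 2 / Real.pi) * 1 := mul_le_mul_of_nonneg_left h2 h4
    _ = _ := mul_one _

include hα hreal hU hρ hB hB0 hL in
/-- complete families, without continuation: the class function of the sizes is bounded -/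
theorem fin_complete_ev (t : ℝ) (hτ : ∀ k, τ k = t) (hirr : ∀ k, (ρ k).IsIrreducible)
    (hne : ∀ k l, k ≠ l → IsEmpty ((ρ k).Equiv (ρ l)))
    (hsum : ∑ k, n k ^ 2 = Nat.card (GK F ⧸ U)) {η : ℝ} (hη : 0 < η) :
    ∀ᶠ ε : ℝ in 𝓝[>] 0, ∀ g : GK F,
      ‖∑ k, (xs w τ L k ε : ℂ) * (ρ k).character g‖ ≤
        b * (if t = 0 then 1 else 2 / Real.pi) + η := by
  classical
  have hA : (0 : ℝ) ≤ b * (if t = 0 then 1 else 2 / Real.pi) := by
    have := Real.pi_pos
    split_ifs <;> positivity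
  obtain ⟨S, hS1, hS2⟩ := exists_net _ η hA hη
  have h1 : ∀ q : GK F ⧸ U, ∀ᶠ ε : ℝ in 𝓝[>] 0, ∀ u ∈ S,
      |∑ k, (u * (ρ k).character q.out).re * xs w τ L k ε| ≤
        b * (if t = 0 then 1 else 2 / Real.pi) + η / 2 := by
    intro q
    rw [Finset.eventually_all]
    intro u hu
    have h2 := fin1 w α hα hreal U hU ρ hρ τ B hB hB0 L hL t
      (fun k => (u * (ρ k).character q.out).re) (fun k _ => hτ k) (half_pos hη)
    filter_upwards [h2] with ε h3
    refine h3.trans (add_le_add_left ?_ _)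
    exact mul_le_mul_of_nonneg_left (nrm_dir U ρ hρ t hirr hne hsum q.out u (hS1 u hu))
      (Nat.cast_nonneg b)
  have h2 := Filter.eventually_all.2 h1
  filter_upwards [h2] with ε h3
  intro g
  have e1 : ∀ k, (ρ k).character g = (ρ k).character (QuotientGroup.mk g : GK F ⧸ U).out := by
    intro k
    have h4 : (QuotientGroup.mk (QuotientGroup.mk g : GK F ⧸ U).out : GK F ⧸ U) =
      QuotientGroup.mk g := QuotientGroup.out_eq' _
    have h5 : ∀ x : GK F, (ρ k).character x =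
        (qrep U (ρ k) (hρ k)).character (QuotientGroup.mk x) := fun x => rfl
    rw [h5, h5, h4]
  simp only [e1]
  refine hS2 _ fun u hu => ?_
  refine le_trans (le_of_eq ?_) ((le_abs_self _).trans (h3 (QuotientGroup.mk g) u hu))
  rw [Finset.mul_sum, Complex.re_sum]
  refine Finset.sum_congr rfl fun k _ => ?_
  have e2 : u * ((xs w τ L k ε : ℂ) * (ρ k).character (QuotientGroup.mk g : GK F ⧸ U).out) =
      ((xs w τ L k ε : ℝ) : ℂ) * (u * (ρ k).character (QuotientGroup.mk g : GK F ⧸ U).out) := by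
    ring
  rw [e2, Complex.re_ofReal_mul]
  ring

end

section
open Pool.Agent.W353.EF (IsFrobenius LFun)
open Pool.Agent.W353.EH (edgePoint size HasOrder)
open Pool.Agent.W353.AT
open Pool.Agent.W353.PV (Eig alp)

variable {K : Type} [Field K] [NumberField K] {l : ℕ} {X : Set (MvPolynomial (Fin l) (𝓞 K))}
  {d i N : ℕ}

theorem edgeComplete (hi : i ≤ 2 * d)
    (U : Subgroup Gal(AlgebraicClosure K/K)) [U.Normal]
    (hU : IsOpen (U : Set Gal(AlgebraicClosure K/K))) (κ : Type) [Fintype κ] (n : κ → ℕ)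
    (ρ : ∀ k, Representation ℂ Gal(AlgebraicClosure K/K) (Fin (n k) → ℂ)) (τ : ℝ)
    (hρ : ∀ k, ∀ u ∈ U, ρ k u = 1) (B : κ → HeightOneSpectrum (𝓞 K) → ℂ[X])
    (hB : ∀ k, IsTwistedSystem X d i N (ρ k) τ (B k)) (hirr : ∀ k, (ρ k).IsIrreducible)
    (hne : ∀ k l, k ≠ l → IsEmpty ((ρ k).Equiv (ρ l)))
    (hsum : ∑ k, n k ^ 2 = Nat.card (Gal(AlgebraicClosure K/K) ⧸ U)) {η : ℝ} (hη : 0 < η) :
    ∀ᶠ ε : ℝ in 𝓝[>] 0, ∀ g, ‖∑ k, (size i τ (B k) ε : ℂ) * (ρ k).character g‖ ≤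
      (if τ = 0 then (N : ℝ) else 2 * N / Real.pi) + η := by
  classical
  have hfin : Finite (GK K ⧸ U) := Subgroup.quotient_finite_of_isOpen U hU
  by_cases hκ : Nonempty κ
  swap
  · have hem : IsEmpty κ := not_nonempty_iff.1 hκ
    filter_upwards with ε g
    rw [Finset.sum_of_isEmpty, norm_zero]
    have := Real.pi_pos
    split_ifs <;> positivity
  have hmain : (∀ᶠ v in cofinite, (κ → True) ∧ (Nonempty κ → Eig X d i v (alp X d i N K v))) ∧
      ∀ k, ∀ᶠ v in cofinite, ∀ σ : GK K, IsFrob v σ → ∀ z : ℂ,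
        (B k v).eval z = ∏ j, LinearMap.det (1 - (alp X d i N K v j * z) • ρ k σ⁻¹) := by
    refine ⟨?_, fun k => (sys_alp hi (hB k)).mono fun v hv => hv.2⟩
    obtain ⟨k⟩ := hκ
    exact (sys_alp hi (hB k)).mono fun v hv => ⟨fun _ => trivial, fun _ => hv.1⟩
  have hw : ∀ k, ∀ v, (B k v).eval (((nm K v : ℕ) : ℂ) ^
        (-((((i : ℝ) / 2 : ℝ) : ℂ) + 1 + (τ : ℂ) * Complex.I))) ≠ 0 := by
    intro k v
    rw [edge_eq]
    exact (hB k).2 v
  have hxs : ∀ k ε, xs ((i : ℝ) / 2) (fun _ => τ) (fun k => LFun (B k)) k ε = size i τ (B k) ε := by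
    intro k ε
    unfold xs size
    rw [edge_eq]
  obtain ⟨h1, h2⟩ := hmain
  have h3 := fin_complete_ev ((i : ℝ) / 2) (alp X d i N K)
    (h1.mono fun v hv j => (hv.2 hκ).norm j) (h1.mono fun v hv => (hv.2 hκ).im hi) U hU ρ hρ
    (fun _ => τ) B h2 hw (fun k => LFun (B k)) (fun k s _ => rfl) τ (fun _ => rfl) hirr hne hsum hη
  filter_upwards [h3] with ε h4 g
  have h5 := h4 g
  simp only [hxs] at h5
  refine h5.trans (add_le_add_left (le_of_eq ?_) _)
  split_ifs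
  · rw [mul_one]
  · ring

end

end Pool.Agent.TH526.AE
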