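import Pool.Agent.TH526.AE.AP
import Pool.Agent.TH526.AE.Defs

set_option autoImplicit false

/-! The sup-norm inequality on the edge line at several heights. -/

namespace Pool.Agent.TH526.AE

open Complex Filter Topology ComplexConjugate Pool.Agent.H341R2 NumberField IsDedekindDomain
  Pool.Agent.W401.Cheb Pool.Agent.W540.BE Polynomial Pool.Agent.W353.L1 MeasureTheory
open Pool.Agent.W353.EF (IsFrobenius LFun)
open Pool.Agent.W353.EH (edgePoint size HasOrder)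
open Pool.Agent.W353.AT
open Pool.Agent.W353.PV (Eig alp tF)

variable {K : Type} [Field K] [NumberField K]

theorem meanAbs_eq (U : Subgroup (GK K)) [U.Normal] [Finite (GK K ⧸ U)] {κ : Type} [Fintype κ]
    {n : κ → ℕ} (ρ : ∀ k, Representation ℂ (GK K) (Fin (n k) → ℂ)) (hρ : ∀ k, ∀ u ∈ U, ρ k u = 1)
    (τ c : κ → ℝ) (Y : ℝ) :
    Mn U (fun q y => |∑ k, c k * MR (chF U ρ hρ k) (τ k) q y|) Y =
      meanAbs U (fun k => (ρ k).character) τ c Y := by
  classical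
  let _ : Fintype (GK K ⧸ U) := Fintype.ofFinite _
  have hch : ∀ (k : κ) (q : GK K ⧸ U),
      (qrep U (ρ k) (hρ k)).character q = (ρ k).character q.out := by
    intro k q
    conv_lhs => rw [← QuotientGroup.out_eq' q]
    rfl
  have hf : ∀ (k : κ) (q : GK K ⧸ U), (chF U ρ hρ k).f q⁻¹ = (ρ k).character q.out := by
    intro k q
    rw [← hch]
    unfold chF
    simp only
    rw [inv_inv]
  have key : ∀ (k : κ) (q : GK K ⧸ U) (y : ℝ), MR (chF U ρ hρ k) (τ k) q⁻¹ y =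
      ((ρ k).character q.out * cexp (-((τ k * y : ℝ) : ℂ) * I)).re := by
    intro k q y
    unfold MR
    rw [hf]
  set Fn : GK K ⧸ U → ℝ := fun q => (∫ y in (0:ℝ)..Y, |∑ k, c k * MR (chF U ρ hρ k) (τ k) q y|) / Y
    with hFn
  have e1 : ∀ q : GK K ⧸ U, Fn q⁻¹ = (∫ y in (0:ℝ)..Y,
      |∑ k, c k * ((ρ k).character q.out * cexp (-((τ k * y : ℝ) : ℂ) * I)).re|) / Y := by
    intro q
    rw [hFn]
    simp only [key]
  have e2 : Mn U (fun q y => |∑ k, c k * MR (chF U ρ hρ k) (τ k) q y|) Y = avR U Fn := rfl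
  have e3 : meanAbs U (fun k => (ρ k).character) τ c Y =
      (∑ᶠ q : GK K ⧸ U, Fn q⁻¹) / Nat.card (GK K ⧸ U) := by
    unfold meanAbs
    simp only [e1]
  rw [e2, e3]
  unfold avR
  rw [finsum_eq_sum_of_fintype, finsum_eq_sum_of_fintype, inv_mul_eq_div]
  congr 1
  exact (Equiv.sum_comp (Equiv.inv (GK K ⧸ U)) Fn).symm

variable {l : ℕ} {X : Set (MvPolynomial (Fin l) (𝓞 K))} {d i N : ℕ}

theorem edgeMulti (hi : i ≤ 2 * d)
    (U : Subgroup Gal(AlgebraicClosure K/K)) [U.Normal]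
    (hU : IsOpen (U : Set Gal(AlgebraicClosure K/K))) (κ : Type) [Fintype κ] (n : κ → ℕ)
    (ρ : ∀ k, Representation ℂ Gal(AlgebraicClosure K/K) (Fin (n k) → ℂ)) (τ : κ → ℝ)
    (hρ : ∀ k, ∀ u ∈ U, ρ k u = 1) (c : κ → ℝ) (A : ℝ)
    (hA : ∀ᶠ Y : ℝ in atTop, meanAbs U (fun k => (ρ k).character) τ c Y ≤ A) :
    (∀ B : κ → HeightOneSpectrum (𝓞 K) → ℂ[X],
      (∀ k, IsTwistedSystem X d i N (ρ k) (τ k) (B k)) →
      (∀ k, ∀ᶠ ε : ℝ in 𝓝[>] 0, LFun (B k) (edgePoint i (τ k) + ε) ≠ 0) ∧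
      ∀ η : ℝ, 0 < η → ∀ᶠ ε : ℝ in 𝓝[>] 0, |∑ k, c k * size i (τ k) (B k) ε| ≤ N * A + η) ∧
    ∀ m : κ → ℤ, (∀ k, TwistOrder X d i N (ρ k) (τ k) (m k)) → |∑ k, c k * m k| ≤ N * A := by
  classical
  have hfin : Finite (GK K ⧸ U) := Subgroup.quotient_finite_of_isOpen U hU
  choose σ hσ using exists_isFrob (F := K)
  have hT : ∀ v, |tF X d i N K v| ≤ (N : ℝ) := fun v => abs_tr_le _ _ _
  have hAP : AP U (fun q y => ∑ k, c k * MR (chF U ρ hρ k) (τ k) q y) :=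
    AP.sum Finset.univ fun k => (AP.atom _ _).smul (c k)
  have hA' : ∀ᶠ Y : ℝ in atTop,
      Mn U (fun q y => |∑ k, c k * MR (chF U ρ hρ k) (τ k) q y|) Y ≤ A := by
    filter_upwards [hA] with Y hY
    rw [meanAbs_eq]
    exact hY
  have hmean : ∀ η : ℝ, 0 < η → ∀ᶠ ε : ℝ in 𝓝[>] 0,
      (EP (nm K) ε fun v => |∑ k, c k * RR (ρ k) (τ k) σ v|) / lam ε ≤ A + η := by
    intro η hη
    filter_upwards [hAP.absMean hU σ hσ hA' hη] with ε hε
    refine le_trans (le_of_eq ?_) hε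
    congr 2
    funext v
    congr 1
    refine Finset.sum_congr rfl fun k _ => ?_
    rw [← log_point, chF_R]
  have hmain : ∀ B : κ → HeightOneSpectrum (𝓞 K) → ℂ[X],
      (∀ k, IsTwistedSystem X d i N (ρ k) (τ k) (B k)) → ∀ η : ℝ, 0 < η →
      ∀ᶠ ε : ℝ in 𝓝[>] 0, |∑ k, c k * size i (τ k) (B k) ε| ≤ N * A + η := by
    intro B hB η hη
    exact comb_bound U Finset.univ ρ hρ τ σ (Nat.cast_nonneg N) hT
      (x := fun k => size i (τ k) (B k))
      (fun k _ => (tw_size hi U (ρ k) (hρ k) (τ k) (B k) (hB k) σ hσ).2) c hmean hη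
  refine ⟨fun B hB => ⟨fun k => (tw_size hi U (ρ k) (hρ k) (τ k) (B k) (hB k) σ hσ).1,
    hmain B hB⟩, fun m hm => ?_⟩
  choose B hB hm using hm
  exact lim_le (K := Finset.univ) (fun k _ => tw_lim hi U (ρ k) (hρ k) (τ k) (B k) (hB k) (hm k)) c
    (hmain B hB)

/-- the mean values converge -/
theorem meanAbs_tendsto (U : Subgroup (GK K)) [U.Normal] (hU : IsOpen (U : Set (GK K)))
    {κ : Type} [Fintype κ] {n : κ → ℕ}
    (ρ : ∀ k, Representation ℂ (GK K) (Fin (n k) → ℂ)) (hρ : ∀ k, ∀ u ∈ U, ρ k u = 1)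
    (τ c : κ → ℝ) :
    ∃ M : ℝ, Tendsto (meanAbs U (fun k => (ρ k).character) τ c) atTop (𝓝 M) := by
  classical
  have hfin : Finite (GK K ⧸ U) := Subgroup.quotient_finite_of_isOpen U hU
  choose σ hσ using exists_isFrob (F := K)
  have hAP : AP U (fun q y => ∑ k, c k * MR (chF U ρ hρ k) (τ k) q y) :=
    AP.sum Finset.univ fun k => (AP.atom _ _).smul (c k)
  obtain ⟨M, hM⟩ := hAP.tendsto_abs hU σ hσ
  refine ⟨M, hM.congr fun Y => ?_⟩
  exact meanAbs_eq U ρ hρ τ c Y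

/-- the inequality with the limit of the mean values -/
theorem edgeMulti' (hi : i ≤ 2 * d)
    (U : Subgroup Gal(AlgebraicClosure K/K)) [U.Normal]
    (hU : IsOpen (U : Set Gal(AlgebraicClosure K/K))) (κ : Type) [Fintype κ] (n : κ → ℕ)
    (ρ : ∀ k, Representation ℂ Gal(AlgebraicClosure K/K) (Fin (n k) → ℂ)) (τ : κ → ℝ)
    (hρ : ∀ k, ∀ u ∈ U, ρ k u = 1) (c : κ → ℝ) :
    ∃ M : ℝ, Tendsto (meanAbs U (fun k => (ρ k).character) τ c) atTop (𝓝 M) ∧
    (∀ B : κ → HeightOneSpectrum (𝓞 K) → ℂ[X],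
      (∀ k, IsTwistedSystem X d i N (ρ k) (τ k) (B k)) → ∀ η : ℝ, 0 < η →
      ∀ᶠ ε : ℝ in 𝓝[>] 0, |∑ k, c k * size i (τ k) (B k) ε| ≤ N * M + η) ∧
    ∀ m : κ → ℤ, (∀ k, TwistOrder X d i N (ρ k) (τ k) (m k)) → |∑ k, c k * m k| ≤ N * M := by
  obtain ⟨M, hM⟩ := meanAbs_tendsto U hU ρ hρ τ c
  refine ⟨M, hM, fun B hB η hη => ?_, fun m hm => ?_⟩
  · set δ : ℝ := η / (2 * (N + 1)) with hδ
    have hδ0 : 0 < δ := by positivity
    have h1 : ∀ᶠ Y : ℝ in atTop, meanAbs U (fun k => (ρ k).character) τ c Y ≤ M + δ :=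
      (hM.eventually_lt_const (show M < M + δ by linarith)).mono fun _ h => h.le
    have h2 := ((edgeMulti (X := X) (N := N) hi U hU κ n ρ τ hρ c (M + δ) h1).1 B hB).2 (η / 2) (by positivity)
    filter_upwards [h2] with ε h3
    refine h3.trans ?_
    have h4 : (N : ℝ) * δ ≤ η / 2 := by
      rw [hδ, mul_div_assoc', div_le_div_iff₀ (by positivity) (by norm_num)]
      nlinarith
    have h5 : (N : ℝ) * (M + δ) = N * M + N * δ := by ring
    linarith
  · refine le_of_forall_pos_le_add fun η hη => ?_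
    set δ : ℝ := η / (N + 1) with hδ
    have hδ0 : 0 < δ := by positivity
    have h1 : ∀ᶠ Y : ℝ in atTop, meanAbs U (fun k => (ρ k).character) τ c Y ≤ M + δ :=
      (hM.eventually_lt_const (show M < M + δ by linarith)).mono fun _ h => h.le
    have h2 := (edgeMulti (X := X) (N := N) hi U hU κ n ρ τ hρ c (M + δ) h1).2 m hm
    refine h2.trans ?_
    have h4 : (N : ℝ) * δ ≤ η := by
      rw [hδ, mul_div_assoc', div_le_iff₀ (by positivity)]
      nlinarith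
    have h5 : (N : ℝ) * (M + δ) = N * M + N * δ := by ring
    linarith

end Pool.Agent.TH526.AE
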