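import Pool.Agent.TH526.AE.Multi
import Pool.Agent.TH526.AE.Cos

set_option autoImplicit false

/-! Two independent heights and one-dimensional characters. -/

namespace Pool.Agent.TH526.AE

open Complex Filter Topology ComplexConjugate Pool.Agent.H341R2 NumberField IsDedekindDomain
  Pool.Agent.W401.Cheb Pool.Agent.W540.BE Polynomial Pool.Agent.W353.L1 MeasureTheory
open Pool.Agent.W353.EF (IsFrobenius LFun)
open Pool.Agent.W353.EH (edgePoint size HasOrder)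
open Pool.Agent.W353.AT

theorem one_dim (f : (Fin 1 → ℂ) →ₗ[ℂ] (Fin 1 → ℂ)) : f = (f 1 0) • LinearMap.id := by
  refine LinearMap.ext fun v => ?_
  have h1 : v = v 0 • (1 : Fin 1 → ℂ) := by
    funext i
    fin_cases i
    simp
  have h2 : f 1 = (f 1 0) • (1 : Fin 1 → ℂ) := by
    funext i
    fin_cases i
    simp
  conv_lhs => rw [h1, map_smul, h2]
  conv_rhs => rw [LinearMap.smul_apply, LinearMap.id_apply, h1]
  rw [smul_comm]

theorem trace_one_dim (f : (Fin 1 → ℂ) →ₗ[ℂ] (Fin 1 → ℂ)) :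
    LinearMap.trace ℂ (Fin 1 → ℂ) f = f 1 0 := by
  conv_lhs => rw [one_dim f]
  rw [map_smul, LinearMap.trace_id]
  simp

theorem char_norm_one {K : Type} [Field K] [NumberField K] (U : Subgroup (GK K)) [U.Normal]
    [Finite (GK K ⧸ U)] (ρ : Representation ℂ (GK K) (Fin 1 → ℂ)) (hρ : ∀ u ∈ U, ρ u = 1)
    (g : GK K) : ‖ρ.character g‖ = 1 := by
  have h1 := norm_char_le U ρ hρ g
  have h2 := norm_char_le U ρ hρ g⁻¹
  have e : ∀ x, ρ.character x = ρ x 1 0 := fun x => trace_one_dim (ρ x)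
  have h3 : ρ.character g * ρ.character g⁻¹ = 1 := by
    rw [e, e]
    have h4 : ρ g (ρ g⁻¹ 1) = 1 := by
      rw [← Module.End.mul_apply, ← map_mul, mul_inv_cancel, map_one ρ, Module.End.one_apply]
    have h5 := congrFun h4 0
    have h6 : ρ g⁻¹ (1 : Fin 1 → ℂ) = (ρ g⁻¹ 1 0) • (1 : Fin 1 → ℂ) := by
      funext i
      fin_cases i
      simp
    rw [h6, map_smul, Pi.smul_apply, smul_eq_mul, Pi.one_apply] at h5
    rw [mul_comm]
    exact h5
  have h4 := congrArg (fun z : ℂ => ‖z‖) h3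
  simp only [norm_mul, norm_one] at h4
  simp only [Nat.cast_one] at h1 h2
  have h5 := norm_nonneg (ρ.character g)
  refine le_antisymm h1 ?_
  nlinarith [norm_nonneg (ρ.character g⁻¹)]

theorem re_unit (z : ℂ) (hz : ‖z‖ = 1) (t y : ℝ) :
    (z * cexp (-((t * y : ℝ) : ℂ) * I)).re = Real.cos (t * y + -(arg z)) := by
  have h1 : z = cexp ((arg z : ℝ) * I) := by
    conv_lhs => rw [← Complex.norm_mul_exp_arg_mul_I z]
    rw [hz, Complex.ofReal_one, one_mul]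
  conv_lhs => rw [h1]
  rw [← Complex.exp_add]
  have e : ((arg z : ℝ) : ℂ) * I + -((t * y : ℝ) : ℂ) * I = ((arg z - t * y : ℝ) : ℂ) * I := by
    push_cast; ring
  rw [e, Complex.exp_ofReal_mul_I_re, ← Real.cos_neg]
  congr 1
  ring

theorem mean_char {K : Type} [Field K] [NumberField K] (U : Subgroup (GK K)) [U.Normal]
    [Finite (GK K ⧸ U)] (ρ : Fin 2 → Representation ℂ (GK K) (Fin 1 → ℂ))
    (hρ : ∀ k, ∀ u ∈ U, ρ k u = 1) (τ c : Fin 2 → ℝ) (hc : ∀ k, |c k| = 1)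
    (hτ : Indep (τ 0) (τ 1)) {A : ℝ} (hA : 8 / Real.pi ^ 2 < A) :
    ∀ᶠ Y : ℝ in atTop, meanAbs U (fun k => (ρ k).character) τ c Y ≤ A := by
  classical
  let _ : Fintype (GK K ⧸ U) := Fintype.ofFinite _
  have h1 : ∀ q : GK K ⧸ U, ∀ᶠ Y : ℝ in atTop, (∫ y in (0:ℝ)..Y,
      |∑ k, c k * ((ρ k).character q.out * cexp (-((τ k * y : ℝ) : ℂ) * I)).re|) / Y ≤ A := by
    intro q
    have hu : ∀ k, ‖(c k : ℂ) * (ρ k).character q.out‖ = 1 := by
      intro k
      rw [norm_mul, Complex.norm_real, Real.norm_eq_abs, hc, char_norm_one U (ρ k) (hρ k), one_mul]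
    have h2 := mean_two hτ (-(arg ((c 0 : ℂ) * (ρ 0).character q.out)))
      (-(arg ((c 1 : ℂ) * (ρ 1).character q.out))) hA
    filter_upwards [h2] with Y hY
    refine le_trans (le_of_eq ?_) hY
    congr 1
    refine intervalIntegral.integral_congr fun y _ => ?_
    congr 1
    rw [Fin.sum_univ_two, ← re_unit _ (hu 0), ← re_unit _ (hu 1), mul_assoc, mul_assoc,
      Complex.re_ofReal_mul, Complex.re_ofReal_mul]
  filter_upwards [Filter.eventually_all.2 h1] with Y hY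
  unfold meanAbs
  rw [finsum_eq_sum_of_fintype]
  have h0 : (0 : ℝ) < Nat.card (GK K ⧸ U) := by exact_mod_cast Nat.card_pos
  rw [div_le_iff₀ h0]
  refine (Finset.sum_le_card_nsmul _ _ A fun q _ => hY q).trans (le_of_eq ?_)
  rw [nsmul_eq_mul, Finset.card_univ, Nat.card_eq_fintype_card, mul_comm]

theorem sum_abs_le {a b C : ℝ} (h : ∀ c : Fin 2 → ℝ, (∀ k, |c k| = 1) → |c 0 * a + c 1 * b| ≤ C) :
    |a| + |b| ≤ C := by
  have h1 := h ![1, 1] (by intro k; fin_cases k <;> simp)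
  have h2 := h ![1, -1] (by intro k; fin_cases k <;> simp)
  simp at h1 h2
  rcases abs_cases a with ha | ha <;> rcases abs_cases b with hb | hb <;>
    linarith [(abs_le.1 h1).1, (abs_le.1 h1).2, (abs_le.1 h2).1, (abs_le.1 h2).2, ha.1, hb.1]

variable {K : Type} [Field K] [NumberField K] {l : ℕ} {X : Set (MvPolynomial (Fin l) (𝓞 K))}
  {d i N : ℕ}

theorem edgeTwo (hi : i ≤ 2 * d)
    (U : Subgroup Gal(AlgebraicClosure K/K)) [U.Normal]
    (hU : IsOpen (U : Set Gal(AlgebraicClosure K/K)))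
    (ρ : Fin 2 → Representation ℂ Gal(AlgebraicClosure K/K) (Fin 1 → ℂ)) (τ : Fin 2 → ℝ)
    (hρ : ∀ k, ∀ u ∈ U, ρ k u = 1)
    (hτ : ∀ a b : ℤ, a * τ 0 + b * τ 1 = 0 → a = 0 ∧ b = 0) :
    (∀ B : Fin 2 → HeightOneSpectrum (𝓞 K) → ℂ[X],
      (∀ k, IsTwistedSystem X d i N (ρ k) (τ k) (B k)) → ∀ η : ℝ, 0 < η →
      ∀ᶠ ε : ℝ in 𝓝[>] 0,
        |size i (τ 0) (B 0) ε| + |size i (τ 1) (B 1) ε| ≤ 8 * N / Real.pi ^ 2 + η) ∧
    ∀ m : Fin 2 → ℤ, (∀ k, TwistOrder X d i N (ρ k) (τ k) (m k)) →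
      |(m 0 : ℝ)| + |(m 1 : ℝ)| ≤ 8 * N / Real.pi ^ 2 := by
  have hfin : Finite (GK K ⧸ U) := Subgroup.quotient_finite_of_isOpen U hU
  have hpi := Real.pi_pos
  have hkey : ∀ (c : Fin 2 → ℝ), (∀ k, |c k| = 1) → ∀ η : ℝ, 0 < η →
      ∃ A : ℝ, (N : ℝ) * A ≤ 8 * N / Real.pi ^ 2 + η ∧
        ∀ᶠ Y : ℝ in atTop, meanAbs U (fun k => (ρ k).character) τ c Y ≤ A := by
    intro c hc η hη
    refine ⟨8 / Real.pi ^ 2 + η / (N + 1), ?_, mean_char U ρ hρ τ c hc hτ (by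
      have : 0 < η / ((N : ℝ) + 1) := by positivity
      linarith)⟩
    have h1 : (N : ℝ) * (η / (N + 1)) ≤ η := by
      rw [mul_div_assoc', div_le_iff₀ (by positivity)]
      nlinarith
    have h2 : (N : ℝ) * (8 / Real.pi ^ 2 + η / (N + 1)) =
        8 * N / Real.pi ^ 2 + N * (η / (N + 1)) := by ring
    linarith
  refine ⟨fun B hB η hη => ?_, fun m hm => ?_⟩
  · have h1 : ∀ c : Fin 2 → ℝ, (∀ k, |c k| = 1) → ∀ᶠ ε : ℝ in 𝓝[>] 0,
        |c 0 * size i (τ 0) (B 0) ε + c 1 * size i (τ 1) (B 1) ε| ≤ 8 * N / Real.pi ^ 2 + η := by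
      intro c hc
      obtain ⟨A, hA1, hA2⟩ := hkey c hc (η / 2) (by positivity)
      have h2 := ((edgeMulti (X := X) (N := N) hi U hU (Fin 2) (fun _ => 1) ρ τ hρ c A hA2).1 B hB).2
        (η / 2) (by positivity)
      filter_upwards [h2] with ε h3
      rw [Fin.sum_univ_two] at h3
      linarith
    have h2 := h1 ![1, 1] (by intro k; fin_cases k <;> simp)
    have h3 := h1 ![1, -1] (by intro k; fin_cases k <;> simp)
    filter_upwards [h2, h3] with ε h4 h5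
    simp at h4 h5
    rcases abs_cases (size i (τ 0) (B 0) ε) with ha | ha <;>
      rcases abs_cases (size i (τ 1) (B 1) ε) with hb | hb <;>
      linarith [(abs_le.1 h4).1, (abs_le.1 h4).2, (abs_le.1 h5).1, (abs_le.1 h5).2, ha.1, hb.1]
  · refine sum_abs_le fun c hc => ?_
    refine le_of_forall_pos_le_add fun η hη => ?_
    obtain ⟨A, hA1, hA2⟩ := hkey c hc η hη
    have h2 := (edgeMulti (X := X) (N := N) hi U hU (Fin 2) (fun _ => 1) ρ τ hρ c A hA2).2 m hm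
    rw [Fin.sum_univ_two] at h2
    exact h2.trans hA1

end Pool.Agent.TH526.AE
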